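import Pool.Agent.Y560.TF.Stm

set_option autoImplicit false

/-! Project TF (helper560), job OES: the small part over a point of a one-ended structure. -/

namespace Pool.Agent.Y290.TF

open Set MeasureTheory
open Pool.Agent.H899R2.VP (St Adj PIso BF IsoOn idOn inv comp zipSet BF_iff)
open Pool.Agent.H533R2.VO (RS lift put OS Ic RIso Dich VC BlkV S_FINAL)
open Pool.Agent.H566P (ar R2 v2 a0 a1 lt ac co mk S_ACC S_MSG)
open Pool.Agent.Y560.TG (acc msg lt_mk ac_mk co_mk R2_ext piso_iff riso_iff riso_isoOn meas_lt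
  meas_ac meas_co meas_into cont_into piso_lt piso_ac piso_co piso_eq ex lt_ex ac_ex co_ex_even
  co_ex_odd piso_ex orb orb_ex Nm Off Sm Thin Few bf_trans0 bf_symm0 iso_trans0 iso_symm0
  iso_refl0 S_EXT S_GL S_MAT S_BP mat pick Se)
open Pool.Agent.Y560.TF

theorem orb_self {Γ : Type} [Group Γ] {g : ℕ → Γ} (hg : Function.Surjective g) {R : R2}
    (hR : TR g R) (y : ℕ) : orb R y y := by
  obtain ⟨t, ht⟩ := hR
  exact (orb_iff hg ht).2 ⟨1, ht.one y⟩

/-- forgetting additional predicates -/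
theorem bf_of_ex {P P' : ℕ → ℕ → Prop} {R R' : R2} {X Y : Set ℕ} {o : Ordinal.{0}}
    {p : Set (ℕ × ℕ)} (h : BF (lift (ex P R)) (lift (ex P' R')) X Y o p) :
    BF (lift R) (lift R') X Y o p := by
  induction o using WellFoundedLT.induction generalizing p with
  | ind o ih =>
    rw [BF_iff] at h ⊢
    refine ⟨(piso_ex.1 h.1).1, fun o' ho' => ⟨fun x hx => ?_, fun y hy => ?_⟩⟩
    · obtain ⟨y, hy, hb⟩ := (h.2 o' ho').1 x hx
      exact ⟨y, hy, ih o' ho' hb⟩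
    · obtain ⟨x, hx, hb⟩ := (h.2 o' ho').2 y hy
      exact ⟨x, hx, ih o' ho' hb⟩

/-- The rigidity of the variations: an isomorphism fixing `y` can be corrected to be the identity
outside the small part. -/
theorem oes_aux (hO : S_OFF) (hT : S_TRQ) (hG : S_GEO) (hE : S_OEB)
    (Γ : Type) [Group Γ] (g : ℕ → Γ) (hg : Function.Surjective g) (R : R2)
    (β γ : Ordinal.{0}) (Λ : ℕ → ℕ → Prop) (hR : TR g R) (hβ : Ordinal.omega0 ≤ β)
    (hγ : β + 3 ≤ γ) (hoe : OneEnd β R) (y : ℕ) (hcov : Cov Λ β R y) (V V' : R2)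
    (hV : Off (Sp β R y) R V) (hV' : Off (Sp β R y) R V')
    (hb : BF (lift R) (lift V) univ univ γ (idOn (Sp β R y)ᶜ))
    (hb' : BF (lift R) (lift V') univ univ γ (idOn (Sp β R y)ᶜ))
    (hi : IsoOn (lift V) (lift V') univ univ {(y, y)}) :
    IsoOn (lift V) (lift V') univ univ (idOn (Sp β R y)ᶜ) := by
  set A : Set ℕ := Sp β R y with hA
  obtain ⟨-, oeb2, -, -, oeb5⟩ := hE Γ g hg R β hR hβ hoe
  have hinv := (oeb5 Λ y hcov).1
  have hβγ : β < γ := lt_of_lt_of_le (lt_add_of_pos_right β (by norm_num)) hγ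
  have hωγ : Ordinal.omega0 ≤ γ := hβ.trans hβγ.le
  have hyA : y ∉ A := fun h => h.2 (orb_self hg hR y)
  obtain ⟨w, hw⟩ := hoe.ex y
  have hwA : w ∉ A := fun h => h.1 hw
  have hB : ∀ z, Bg β R y z ↔ z ∈ Ob R y w := fun z => oeb2 y z w hw
  set B : Set ℕ := Ob R y w with hBdef
  have hBA : ∀ z ∈ B, z ∉ A := fun z hz h => h.1 ((hB z).2 hz)
  have hdis : Disjoint (Ob R y w) A := Set.disjoint_left.2 hBA
  obtain ⟨mV, -, -, oV, -, o1⟩ := hO Γ g hg R V A hR hinv hV (hb.mono hωγ)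
  obtain ⟨mV', -, -, oV', -, o1'⟩ := hO Γ g hg R V' A hR hinv hV' (hb'.mono hωγ)
  have eV : Ob V y w = B := oV y w hyA hwA hdis
  have eV' : Ob V' y w = B := oV' y w hyA hwA hdis
  obtain ⟨q, q1, q2, q3, q4, q5⟩ := hi
  have hyy : (y, y) ∈ q := q1 rfl
  have hq : IsoOn (lift V) (lift V') univ univ q := ⟨q, Subset.rfl, q2, q3, q4, q5⟩
  obtain ⟨w1, hw1⟩ := q4 w trivial
  -- `w1` is in `B`
  have hnorb : ¬ orb V' y w1 := by
    rintro ⟨n, hn⟩
    have h1 : ac V n y w := (piso_ac q3 hyy hw1).2 hn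
    have h2 : ac R n y w := (hV.2.1 n y w (fun h => hyA h.1)).1 h1
    exact hw.1 ⟨n, h2⟩
  have hw1A : w1 ∉ A := by
    intro hw1A
    obtain ⟨z1, -, hz1⟩ := hb'.back hβγ (mem_univ w1)
    have hz1A : z1 ∈ A := by
      by_contra hz
      have h1 : (z1, z1) ∈ insert (z1, w1) (idOn Aᶜ) := mem_insert_of_mem _ ⟨rfl, hz⟩
      have h2 := (piso_eq hz1.piso (mem_insert (z1, w1) _) h1).1 rfl
      exact hz (h2 ▸ hw1A)
    have h3 := hT.2.2.1 R V' _ y y z1 w1 β hβ hz1 (mem_insert_of_mem _ ⟨rfl, hyA⟩)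
      (mem_insert _ _)
    have h4 := hT.2.2.2.1 V V' q y y w w1 hq hyy hw1
    rw [eV] at h4
    have h5 : IsoOn (lift (lb R y)) (lift (lb V y)) B B (idOn B) := by
      refine ⟨idOn B, Subset.rfl, ?_, ?_, fun x hx => ⟨x, rfl, hx⟩, fun x hx => ⟨x, rfl, hx⟩⟩
      · rintro ⟨u, v⟩ ⟨h, h'⟩
        simp only at h h'
        subst h
        exact ⟨h', h'⟩
      · unfold lb
        rw [piso_ex, piso_iff]
        refine ⟨⟨?_, ?_, ?_, ?_⟩, ?_⟩
        · rintro ⟨u, u'⟩ ⟨k1, hu⟩ ⟨v, v'⟩ ⟨k2, hv⟩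
          simp only at k1 k2 hu hv
          subst k1 k2
          exact Iff.rfl
        · rintro ⟨u, u'⟩ ⟨k1, hu⟩ ⟨v, v'⟩ ⟨k2, hv⟩
          simp only at k1 k2 hu hv
          subst k1 k2
          exact (hV.1 _ _ (fun h => hBA _ hu h.1)).symm
        · rintro n ⟨u, u'⟩ ⟨k1, hu⟩ ⟨v, v'⟩ ⟨k2, hv⟩
          simp only at k1 k2 hu hv
          subst k1 k2
          exact (hV.2.1 _ _ _ (fun h => hBA _ hu h.1)).symm
        · rintro n ⟨u, u'⟩ ⟨k1, hu⟩
          simp only at k1 hu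
          subst k1
          exact (hV.2.2 _ _ (hBA _ hu)).symm
        · rintro k ⟨u, u'⟩ ⟨k1, hu⟩
          simp only at k1 hu
          subst k1
          exact (o1 y u k hyA (hBA _ hu)).symm
    have h6 : BF (lift (lb R y)) (lift (lb R y)) (Ob R y z1) (Ob R y w) β ∅ := by
      have h7 := iso_trans0 (h5.mono (empty_subset _)) (h4.mono (empty_subset _))
      exact bf_trans0 (h3.subset (empty_subset _)) (bf_symm0 (h7.bf β))
    exact hz1A.1 ⟨hz1A.2, fun h => hw.2 (h.congr h6)⟩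
  have hw1B : w1 ∈ B := by
    rw [← hB]
    by_contra h
    by_cases h2 : orb R y w1
    · obtain ⟨n, hn⟩ := h2
      exact hnorb ⟨n, (hV'.2.1 n y w1 (fun h => hyA h.1)).2 hn⟩
    · exact hw1A ⟨h, h2⟩
  have G' := hG Γ g hg V' mV'
  have G := hG Γ g hg V mV
  have eV1 : Ob V' y w1 = B := by rw [G'.eqv y w w1 (by rw [eV']; exact hw1B), eV']
  have hbb : ∀ b b', (b, b') ∈ q → (b ∈ B ↔ b' ∈ B) := by
    intro b b' hbb
    have := hT.2.1 V V' q y y w w1 b b' (hq.bf 8) hyy hw1 hbb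
    rwa [eV, eV1] at this
  have hBB : ∀ a ∈ B, ∀ b ∈ B, (lt V a b ↔ lt V' a b) := fun a ha b _ =>
    (hV.1 _ _ (fun h => hBA _ ha h.1)).trans (hV'.1 _ _ (fun h => hBA _ ha h.1)).symm
  have hmix : ∀ z z' b, (z, z') ∈ q → z ∉ B → b ∈ B → (lt V z b ↔ lt V' z' b) ∧
      (lt V b z ↔ lt V' b z') := by
    intro z z' b hzz hz hbB
    obtain ⟨b', hb'⟩ := q4 b trivial
    have hb'B : b' ∈ B := (hbb _ _ hb').1 hbB
    have hz'B : z' ∉ B := fun h => hz ((hbb _ _ hzz).2 h)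
    have hsl : sl V' y b' b := by
      intro m
      have h1 := hT.1 V V' q y y b b' m (hq.bf 3) hyy hb'
      rw [← h1, o1 y b m hyA (hBA _ hbB), o1' y b m hyA (hBA _ hbB)]
    obtain ⟨k1, k2⟩ := (G'.mod y w).2 b' (by rw [eV']; exact hb'B) b (by rw [eV']; exact hbB) hsl
      z' (by rw [eV']; exact hz'B)
    exact ⟨(piso_lt q3 hzz hb').trans k2, (piso_lt q3 hb' hzz).trans k1⟩
  have hmixac : ∀ z z' b n, (z, z') ∈ q → z ∉ B → b ∈ B → (ac V n z b ↔ ac V' n z' b) ∧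
      (ac V n b z ↔ ac V' n b z') := by
    intro z z' b n hzz hz hbB
    have hz'B : z' ∉ B := fun h => hz ((hbb _ _ hzz).2 h)
    refine ⟨⟨fun h => ?_, fun h => ?_⟩, ⟨fun h => ?_, fun h => ?_⟩⟩
    · have := (G.inv n y w z b h).2 (by rw [eV]; exact hbB)
      rw [eV] at this
      exact absurd this hz
    · have := (G'.inv n y w z' b h).2 (by rw [eV']; exact hbB)
      rw [eV'] at this
      exact absurd this hz'B
    · have := (G.inv n y w b z h).1 (by rw [eV]; exact hbB)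
      rw [eV] at this
      exact absurd this hz
    · have := (G'.inv n y w b z' h).1 (by rw [eV']; exact hbB)
      rw [eV'] at this
      exact absurd this hz'B
  refine ⟨{u | u ∈ q ∧ u.1 ∉ B} ∪ idOn B, ?_, fun _ _ => ⟨trivial, trivial⟩, ?_, ?_, ?_⟩
  · rintro ⟨z, z'⟩ ⟨h1, hz⟩
    simp only at h1 hz
    subst h1
    by_cases hzB : z ∈ B
    · exact Or.inr ⟨rfl, hzB⟩
    · left
      refine ⟨?_, hzB⟩
      have h2 : orb R y z := by
        by_contra h2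
        exact hz ⟨fun h3 => hzB ((hB z).1 h3), h2⟩
      obtain ⟨n, hn⟩ := h2
      obtain ⟨z', hz'⟩ := q4 z trivial
      have h3 : ac V n y z := (hV.2.1 n y z (fun h => hyA h.1)).2 hn
      have h4 : ac V' n y z := (hV'.2.1 n y z (fun h => hyA h.1)).2 hn
      have h5 : ac V' n y z' := (piso_ac q3 hyy hz').1 h3
      have h6 : z' = z := G'.func n y z' z h5 h4
      rwa [h6] at hz'
  · rw [piso_iff]
    refine ⟨?_, ?_, ?_, ?_⟩
    · rintro ⟨u, u'⟩ (⟨hu, hu2⟩ | ⟨hu, hu2⟩) ⟨v, v'⟩ (⟨hv, hv2⟩ | ⟨hv, hv2⟩)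
      · exact piso_eq q3 hu hv
      · simp only at hu2 hv hv2 ⊢
        subst hv
        refine ⟨fun h => absurd (h ▸ hv2) hu2, fun h => ?_⟩
        exact absurd ((hbb _ _ hu).2 (h ▸ hv2)) hu2
      · simp only at hv2 hu hu2 ⊢
        subst hu
        refine ⟨fun h => absurd (h ▸ hu2) hv2, fun h => ?_⟩
        exact absurd ((hbb _ _ hv).2 (h ▸ hu2)) hv2
      · simp only at hu hv ⊢
        subst hu hv
        exact Iff.rfl
    · rintro ⟨u, u'⟩ (⟨hu, hu2⟩ | ⟨hu, hu2⟩) ⟨v, v'⟩ (⟨hv, hv2⟩ | ⟨hv, hv2⟩)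
      · exact piso_lt q3 hu hv
      · simp only at hu2 hv hv2 ⊢
        subst hv
        exact (hmix u u' v hu hu2 hv2).1
      · simp only at hv2 hu hu2 ⊢
        subst hu
        exact (hmix v v' u hv hv2 hu2).2
      · simp only at hu hv hu2 hv2 ⊢
        subst hu hv
        exact hBB _ hu2 _ hv2
    · rintro n ⟨u, u'⟩ (⟨hu, hu2⟩ | ⟨hu, hu2⟩) ⟨v, v'⟩ (⟨hv, hv2⟩ | ⟨hv, hv2⟩)
      · exact piso_ac q3 hu hv
      · simp only at hu2 hv hv2 ⊢
        subst hv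
        exact (hmixac u u' v n hu hu2 hv2).1
      · simp only at hv2 hu hu2 ⊢
        subst hu
        exact (hmixac v v' u n hv hv2 hu2).2
      · simp only at hu hv hu2 hv2 ⊢
        subst hu hv
        exact (hV.2.1 _ _ _ (fun h => hBA _ hu2 h.1)).trans
          (hV'.2.1 _ _ _ (fun h => hBA _ hu2 h.1)).symm
    · rintro n ⟨u, u'⟩ (⟨hu, hu2⟩ | ⟨hu, hu2⟩)
      · exact piso_co q3 hu
      · simp only at hu hu2 ⊢
        subst hu
        exact (hV.2.2 _ _ (hBA _ hu2)).trans (hV'.2.2 _ _ (hBA _ hu2)).symm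
  · intro x _
    by_cases hx : x ∈ B
    · exact ⟨x, Or.inr ⟨rfl, hx⟩⟩
    · obtain ⟨x', hx'⟩ := q4 x trivial
      exact ⟨x', Or.inl ⟨hx', hx⟩⟩
  · intro x _
    by_cases hx : x ∈ B
    · exact ⟨x, Or.inr ⟨rfl, hx⟩⟩
    · obtain ⟨x', hx'⟩ := q5 x trivial
      exact ⟨x', Or.inl ⟨hx', fun h => hx ((hbb _ _ hx').1 h)⟩⟩

/-- transfer of the labels `PA` -/
theorem pa_iff (hT : S_TRQ) (hET : S_OET) {R R' : R2} {β : Ordinal.{0}} (hβ : Ordinal.omega0 ≤ β)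
    (Λ : ℕ → ℕ → Prop) {q : Set (ℕ × ℕ)} {y y' x x' : ℕ}
    (h : BF (lift R) (lift R') univ univ (β + 1) q) (hy : (y, y') ∈ q) (hx : (x, x') ∈ q)
    (k : ℕ) : PA Λ β R y k x ↔ PA Λ β R' y' k x' := by
  have h3 : (3 : Ordinal.{0}) ≤ β + 1 := by
    have h4 : (3 : Ordinal.{0}) ≤ Ordinal.omega0 := (Ordinal.natCast_lt_omega0 3).le
    exact (h4.trans hβ).trans (Order.le_succ β)
  unfold PA
  split_ifs
  · exact hT.1 R R' q y y' x x' (k / 2) (h.mono h3) hy hx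
  · exact (hET R R' β Λ hβ).2.1 q (k / 2) y x y' x' h hy hx

/-- OES -/
theorem t_OES (hN : S_NFEW) (hP : S_PSL) (hI : S_SI1) (hNS : S_NSM) (hO : S_OFF) (hT : S_TRQ)
    (hG : S_GEO) (hE : S_OEB) (hET : S_OET) : S_OES := by
  intro Γ _ g hg R β γ Λ hR hβ hγ hω hfew hoe y hcov
  obtain ⟨-, oeb2, -, -, oeb5⟩ := hE Γ g hg R β hR hβ hoe
  have hβγ : β < γ := lt_of_lt_of_le (lt_add_of_pos_right β (by norm_num)) hγ
  have hωγ : Ordinal.omega0 ≤ γ := hβ.trans hβγ.le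
  have hyA : y ∉ Sp β R y := fun h => h.2 (orb_self hg hR y)
  have hβ2 : β + 2 ≤ γ := by
    refine le_trans ?_ hγ
    gcongr
    norm_num
  have hβ1 : β + 1 < γ := by
    refine lt_of_lt_of_le ?_ hγ
    gcongr
    norm_num
  have h1 : Few γ (Nm (Sp β R y) R) := by
    refine hN R (Sp β R y) y γ ∅ hyA hωγ hω hfew
      ⟨fun _ => R, fun V hV => absurd hV (notMem_empty V)⟩ ?_
    intro V V' _ hV hV' hb hb' hi
    exact oes_aux hO hT hG hE Γ g hg R β γ Λ hR hβ hγ hoe y hcov V V' hV hV' hb hb' hi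
  have h2 : Thin γ (Nm (Sp β R y) R) := by
    refine hP Γ g hg (Nm (Sp β R y) R) y β γ (tr_nm hR) hβ hβ2 hω h1 ?_
    intro z hz
    have G := hG Γ g hg R hR
    have hz' : ¬ orb R y z := by
      unfold Nm at hz
      rwa [orb_ex] at hz
    obtain ⟨n1, n2, n3⟩ := hNS R (Sp β R y) (Ob R y z) y β hβ
    rw [n3]
    by_cases hbg : Bg β R y z
    · refine n2 (Set.disjoint_left.2 fun x hx hxA => ?_)
      exact hxA.1 ((oeb2 y x z hbg).2 hx)
    · have hsm : Sm β (lb R y) (Ob R y z) := by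
        by_contra h
        exact hbg ⟨hz', h⟩
      refine (n1 ?_).1 hsm
      intro x hx
      refine ⟨fun h => hbg ?_, ?_⟩
      · rw [oeb2 y z x h, G.eqv y z x hx]
        exact G.self y z
      · rintro ⟨n, hn⟩
        exact hz' (((G.out y z).1).1 ((G.inv n y z y x hn).2 hx))
  -- the hypothesis of `SI1`
  have key : ∀ V : R2, BF (lift (ex (PA Λ β R y) R)) (lift (ex (PA Λ β R y) V)) univ univ γ
      (idOn (Sp β R y)ᶜ) → ∀ k x, PA Λ β V y k x ↔ PA Λ β R y k x := by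
    intro V hV k x
    obtain ⟨x0, -, hx0⟩ := hV.back hβ1 (mem_univ x)
    have e1 : PA Λ β R y k x0 ↔ PA Λ β R y k x := (piso_ex.1 hx0.piso).2 k _ (mem_insert _ _)
    have hy0 : (y, y) ∈ idOn (Sp β R y)ᶜ := ⟨rfl, hyA⟩
    have e2 := pa_iff hT hET hβ Λ (bf_of_ex hx0) (mem_insert_of_mem (x0, x) hy0)
      (mem_insert (x0, x) _) k
    exact e2.symm.trans e1
  refine hI R (Sp β R y) (PA Λ β R y) γ (oeb5 Λ y hcov) hωγ ?_ h2
  intro V V' q hV hV' hq hVV' u hu _ k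
  have e1 := key V hV k u.1
  have e2 := key V' hV' k u.2
  have e3 := pa_iff hT hET hβ Λ (hVV'.mono hβ1.le) (hq ⟨rfl, hyA⟩ : (y, y) ∈ q)
    (show (u.1, u.2) ∈ q from hu) k
  exact e1.symm.trans (e3.trans e2)

end Pool.Agent.Y290.TF
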